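import Pool.Agent.helper88.RQ2.Spec

set_option autoImplicit false

open Set Matroid RadonMin

namespace RadonQ2

theorem GAI_proof : GAI_stmt := by
  classical
  intro V _ _ _ B
  rw [affineIndependent_iff]
  constructor
  · intro h s w h1 h2 e he
    let f : V → ℝ := fun x => if hx : x ∈ B then (if (⟨x, hx⟩ : B) ∈ s then w ⟨x, hx⟩ else 0) else 0
    have hf : ∀ x : B, f (x : V) = if x ∈ s then w x else 0 := by
      intro x
      show (if hx : (x : V) ∈ B then (if (⟨(x : V), hx⟩ : B) ∈ s then w ⟨(x : V), hx⟩ else 0) else 0) = _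
      rw [dif_pos x.2]
    have e1 : ∑ x ∈ B, f x = 0 := by
      rw [← Finset.sum_coe_sort B f, Finset.sum_congr rfl (fun x _ => hf x), Finset.sum_ite_mem, Finset.univ_inter]
      exact h1
    have e2 : ∑ x ∈ B, f x • x = 0 := by
      rw [← Finset.sum_coe_sort B (fun x => f x • x)]
      have e3 : ∀ x : B, f (x : V) • (x : V) = if x ∈ s then w x • (x : V) else 0 := by
        intro x
        rw [hf x]
        split_ifs
        · rfl
        · exact zero_smul _ _
      rw [Finset.sum_congr rfl (fun x _ => e3 x), Finset.sum_ite_mem, Finset.univ_inter]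
      exact h2
    have e4 := h f e1 e2 e e.2
    rw [hf e, if_pos he] at e4
    exact e4
  · intro h f h1 h2 x hx
    have e1 : ∑ x ∈ (Finset.univ : Finset B), f (x : V) = 0 := by
      rw [Finset.sum_coe_sort B f]
      exact h1
    have e2 : ∑ x ∈ (Finset.univ : Finset B), f (x : V) • (x : V) = 0 := by
      rw [Finset.sum_coe_sort B (fun x => f x • x)]
      exact h2
    exact h Finset.univ (fun x => f (x : V)) e1 e2 ⟨x, hx⟩ (Finset.mem_univ _)

end RadonQ2
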